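import Mathlib
import Pool.Agent.Q102.Grid

/-!
# The mobile general position number of the infinite integer lattices (MP_903b9e_co)

`mob(P_∞^{k,□}) = 2 ^ (2 ^ (k - 1))` for all `k ≥ 1`.

Take a largest general position set all of whose points differ by at least two in every coordinate.
If it is translated robot by robot along an edge, the order of the robots in every coordinate does not
change, so all intermediate sets are in general position.  An infinite walk through all lattice
points then moves a given robot to every vertex.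
-/

set_option autoImplicit false

open SimpleGraph Finset

namespace Pool.Agent.Results.MP_903b9e_co.MobOfGrid

section Defs

variable {V : Type*} (G : SimpleGraph V)

/-- `S` is a general position set: no three vertices of `S` lie on a common shortest path. -/
def IsGP (S : Set V) : Prop :=
  ∀ x ∈ S, ∀ y ∈ S, ∀ z ∈ S, x ≠ y → y ≠ z → x ≠ z →
    ∀ (a b : V) (p : G.Walk a b), p.length = G.dist a b →
      ¬ (x ∈ p.support ∧ y ∈ p.support ∧ z ∈ p.support)

/-- One robot moves to an adjacent unoccupied vertex and the new set is in general position. -/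
def LegalMove (S T : Set V) : Prop :=
  ∃ x ∈ S, ∃ y, y ∉ S ∧ G.Adj x y ∧ T = insert y (S \ {x}) ∧ IsGP G T

/-- `S` is a mobile general position set of an infinite graph: it is in general position and some
infinite sequence of legal moves starting from `S` visits every vertex. -/
def IsMobileGP (S : Set V) : Prop :=
  IsGP G S ∧ ∃ f : ℕ → Set V, f 0 = S ∧ (∀ i, LegalMove G (f i) (f (i + 1))) ∧ ∀ v, ∃ i, v ∈ f i

/-- The mobile general position number, as a supremum of cardinalities in `ℕ∞`. -/
noncomputable def mob : ℕ∞ := ⨆ (S : Set V) (_ : IsMobileGP G S), S.encard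

end Defs

/-- The `k`-dimensional infinite grid: the vertices are the points of `ℤ ^ k`, and two points are
adjacent when they differ by `1` in exactly one coordinate. -/
def grid (k : ℕ) : SimpleGraph (Fin k → ℤ) where
  Adj x y := ∃ i, |x i - y i| = 1 ∧ ∀ j, j ≠ i → x j = y j
  symm := ⟨fun _ _ ⟨i, h, hj⟩ => ⟨i, by rw [abs_sub_comm]; exact h, fun j h' => (hj j h').symm⟩⟩
  loopless := ⟨fun _ ⟨_, h, _⟩ => by simp at h⟩

section Tour

open Pool.Agent.Q102.Grid (D exists_step D_self)

variable {m : ℕ}

/-- There is an infinite walk from the origin through all lattice points. -/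
theorem exists_tour (m : ℕ) : ∃ t : ℕ → (Fin (m + 1) → ℤ), (∀ i, (grid (m + 1)).Adj (t i) (t (i + 1))) ∧
    ∀ v, ∃ i, t i = v := by
  classical
  obtain ⟨e, he⟩ := exists_surjective_nat (Fin (m + 1) → ℤ)
  have hnb : ∀ x : Fin (m + 1) → ℤ, ∃ y, (grid (m + 1)).Adj x y := by
    intro x
    obtain ⟨w, hw, -⟩ := exists_step x (x + 1) (fun h => by simpa using congrFun h 0)
    exact ⟨w, hw⟩
  choose nb hnb using hnb
  have htw : ∀ x y : Fin (m + 1) → ℤ, ∃ w, x ≠ y → (grid (m + 1)).Adj x w ∧ D w y + 1 = D x y := by
    intro x y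
    by_cases h : x = y
    · exact ⟨x, fun h' => absurd h h'⟩
    · obtain ⟨w, hw⟩ := exists_step x y h
      exact ⟨w, fun _ => hw⟩
  choose tw htw using htw
  let next : (Fin (m + 1) → ℤ) × ℕ → (Fin (m + 1) → ℤ) × ℕ := fun s =>
    if s.1 = e s.2 then (nb s.1, s.2 + 1) else (tw s.1 (e s.2), s.2)
  have hnext : ∀ s, (grid (m + 1)).Adj s.1 (next s).1 := by
    intro s
    by_cases h : s.1 = e s.2
    · simp only [next, if_pos h]
      exact hnb _
    · simp only [next, if_neg h]
      exact (htw _ _ h).1
  let st : ℕ → (Fin (m + 1) → ℤ) × ℕ := fun i => next^[i] (0, 0)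
  have hst : ∀ i, st (i + 1) = next (st i) := fun i => Function.iterate_succ_apply' _ _ _
  have reach : ∀ d i, D (st i).1 (e (st i).2) = d →
      ∃ i', (st i').1 = e (st i).2 ∧ (st i').2 = (st i).2 := by
    intro d
    induction d with
    | zero =>
      intro i hi
      refine ⟨i, ?_, rfl⟩
      by_contra hne
      have := Pool.Agent.Q102.Grid.D_pos hne
      omega
    | succ d ih =>
      intro i hi
      have hne : (st i).1 ≠ e (st i).2 := by
        intro h
        rw [h, D_self] at hi
        omega
      have h1 : st (i + 1) = (tw (st i).1 (e (st i).2), (st i).2) := by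
        rw [hst]
        simp only [next, if_neg hne]
      have h2 := (htw _ _ hne).2
      have h3 : D (st (i + 1)).1 (e (st (i + 1)).2) = d := by
        rw [h1]
        simp only
        omega
      obtain ⟨i', h4, h5⟩ := ih (i + 1) h3
      rw [h1] at h4 h5
      exact ⟨i', h4, h5⟩
  have visit : ∀ n, ∃ i, st i = (e n, n) := by
    intro n
    induction n with
    | zero =>
      obtain ⟨i, h1, h2⟩ := reach _ 0 rfl
      exact ⟨i, Prod.ext h1 h2⟩
    | succ n ih =>
      obtain ⟨i, hi⟩ := ih
      have h1 : st (i + 1) = (nb (e n), n + 1) := by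
        rw [hst, hi]
        simp only [next, if_true]
      obtain ⟨i', h2, h3⟩ := reach _ (i + 1) rfl
      rw [h1] at h2 h3
      exact ⟨i', Prod.ext h2 h3⟩
  refine ⟨fun i => (st i).1, fun i => ?_, fun v => ?_⟩
  · change (grid (m + 1)).Adj (st i).1 (st (i + 1)).1
    rw [hst]
    exact hnext _
  · obtain ⟨n, rfl⟩ := he v
    obtain ⟨i, hi⟩ := visit n
    exact ⟨i, by change (st i).1 = e n; rw [hi]⟩

end Tour

open Pool.Agent.Q102.Grid (R)

/-- Sets in general position are small. -/
theorem encard_le {m : ℕ} {S : Set (Fin (m + 1) → ℤ)} (hS : IsGP (grid (m + 1)) S) :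
    S.encard ≤ ((2 ^ 2 ^ m : ℕ) : ℕ∞) := by
  have hfin : ∀ F : Finset (Fin (m + 1) → ℤ), (F : Set (Fin (m + 1) → ℤ)) ⊆ S →
      F.card ≤ 2 ^ 2 ^ m := by
    intro F hF
    apply Pool.Agent.Q102.Grid.card_le F 2
    intro τ T hT hcomp
    by_contra hcon
    obtain ⟨T', hT', hcard⟩ := exists_subset_card_eq (show 3 ≤ T.card by omega)
    obtain ⟨a, b, -, -, p, hp, hpT⟩ := Pool.Agent.Q102.Grid.geodesic_of_chain (τ := τ) 2 T'
      (by omega) fun x hx y hy => hcomp x (hT' hx) y (hT' hy)
    obtain ⟨x, y, z, hxy, hxz, hyz, rfl⟩ := card_eq_three.mp hcard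
    exact hS x (hF (hT (hT' (by simp)))) y (hF (hT (hT' (by simp)))) z
      (hF (hT (hT' (by simp)))) hxy hyz hxz a b p
      (hp.trans (Pool.Agent.Q102.Grid.dist_eq a b).symm)
      ⟨hpT x (by simp), hpT y (by simp), hpT z (by simp)⟩
  by_contra hcon
  rw [not_le] at hcon
  have h1 : ((2 ^ 2 ^ m + 1 : ℕ) : ℕ∞) ≤ S.encard := by
    have := Order.add_one_le_of_lt hcon
    exact_mod_cast this
  obtain ⟨T, hTS, hT⟩ := Set.exists_subset_encard_eq h1
  have hTfin : T.Finite := Set.finite_of_encard_eq_coe hT
  have h2 := hfin hTfin.toFinset (by simpa using hTS)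
  have h3 : T.encard = hTfin.toFinset.card := hTfin.encard_eq_coe_toFinset_card
  rw [h3] at hT
  have h4 : hTfin.toFinset.card = 2 ^ 2 ^ m + 1 := by exact_mod_cast hT
  omega

/-- `mob(P_∞^{k,□}) = 2 ^ (2 ^ (k - 1))` for every `k ≥ 1`. -/
theorem result (k : ℕ) (hk : 1 ≤ k) : mob (grid k) = ((2 ^ 2 ^ (k - 1) : ℕ) : ℕ∞) := by
  classical
  obtain ⟨m, rfl⟩ : ∃ m, k = m + 1 := ⟨k - 1, by omega⟩
  rw [Nat.add_sub_cancel]
  apply le_antisymm
  · exact iSup₂_le fun S hS => encard_le hS.1
  obtain ⟨X, hX, hXT, hXg⟩ := Pool.Agent.Q102.Grid.exists_points_max m 2 2 (by norm_num)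
  obtain ⟨t, ht, htv⟩ := exists_tour m
  -- enumerate the robots
  let N := X.card
  have hN : 0 < N := by
    simp only [N, hX]
    positivity
  let s : Fin N → (Fin (m + 1) → ℤ) := fun a => (X.equivFin.symm a).1
  have hsX : ∀ a, s a ∈ X := fun a => (X.equivFin.symm a).2
  have hsinj : Function.Injective s := fun a b h =>
    X.equivFin.symm.injective (Subtype.ext h)
  have hgap : ∀ a b, a ≠ b → ∀ j, (2 : ℤ) ≤ |s a j - s b j| := fun a b hab j => by
    have := hXg (s a) (hsX a) (s b) (hsX b) (fun h => hab (hsinj h)) j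
    exact_mod_cast this
  -- the positions
  let pos : ℕ → ℕ → Fin N → (Fin (m + 1) → ℤ) := fun i r a =>
    s a + if a.val < r then t (i + 1) else t i
  have hstep : ∀ i j, |t (i + 1) j - t i j| ≤ 1 := by
    intro i j
    obtain ⟨l, h1, h2⟩ := ht i
    by_cases hjl : j = l
    · rw [hjl, abs_sub_comm, h1]
    · rw [h2 j hjl]
      simp
  -- differences of positions
  have hdiff : ∀ i r a b j, |(pos i r a j - pos i r b j) - (s a j - s b j)| ≤ 1 := by
    intro i r a b j
    have h1 := hstep i j
    simp only [pos, Pi.add_apply]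
    split_ifs
    · simp
    · have : s a j + t (i + 1) j - (s b j + t i j) - (s a j - s b j) = t (i + 1) j - t i j := by ring
      rw [this]
      exact h1
    · have : s a j + t i j - (s b j + t (i + 1) j) - (s a j - s b j) =
          -(t (i + 1) j - t i j) := by ring
      rw [this, abs_neg]
      exact h1
    · simp
  -- the order type does not change
  have hR : ∀ i r a b τ, a ≠ b → R τ (pos i r a) (pos i r b) → R τ (s a) (s b) := by
    intro i r a b τ hab h j
    have h1 := hdiff i r a b j
    have h2 := hgap a b hab j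
    rw [abs_le] at h1
    rw [le_abs] at h2
    constructor
    · intro hj
      have := (h j).1 hj
      omega
    · intro hj
      have := (h j).2 hj
      omega
  have hposinj : ∀ i r, Function.Injective (pos i r) := by
    intro i r a b hab
    by_contra hne
    have h1 := hdiff i r a b 0
    have h2 := hgap a b hne 0
    rw [hab, abs_le] at h1
    rw [le_abs] at h2
    omega
  have hGP : ∀ i r, IsGP (grid (m + 1)) (Set.range (pos i r)) := by
    rintro i r _ ⟨a, rfl⟩ _ ⟨b, rfl⟩ _ ⟨c, rfl⟩ hab hbc hac u v p hp ⟨h1, h2, h3⟩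
    obtain ⟨τ, hτ⟩ := Pool.Agent.Q102.Grid.comparable_of_geodesic p hp
    have nab : a ≠ b := fun h => hab (by rw [h])
    have nbc : b ≠ c := fun h => hbc (by rw [h])
    have nac : a ≠ c := fun h => hac (by rw [h])
    have key : ∀ x y : Fin N, x ≠ y → pos i r x ∈ p.support → pos i r y ∈ p.support →
        R τ (s x) (s y) ∨ R τ (s y) (s x) := by
      intro x y hxy hx hy
      exact (hτ _ hx _ hy).imp (hR i r x y τ hxy) (hR i r y x τ hxy.symm)
    have hcard : ({s a, s b, s c} : Finset (Fin (m + 1) → ℤ)).card = 3 := by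
      rw [card_eq_three]
      exact ⟨s a, s b, s c, fun h => nab (hsinj h), fun h => nac (hsinj h),
        fun h => nbc (hsinj h), rfl⟩
    have hle := hXT τ {s a, s b, s c} (by
      intro x hx
      simp only [mem_insert, mem_singleton] at hx
      rcases hx with rfl | rfl | rfl
      · exact hsX a
      · exact hsX b
      · exact hsX c) (by
      intro x hx y hy
      simp only [mem_insert, mem_singleton] at hx hy
      rcases hx with rfl | rfl | rfl <;> rcases hy with rfl | rfl | rfl
      · exact Or.inl (Pool.Agent.Q102.Grid.R_refl _ _)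
      · exact key a b nab h1 h2
      · exact key a c nac h1 h3
      · exact key b a nab.symm h2 h1
      · exact Or.inl (Pool.Agent.Q102.Grid.R_refl _ _)
      · exact key b c nbc h2 h3
      · exact key c a nac.symm h3 h1
      · exact key c b nbc.symm h3 h2
      · exact Or.inl (Pool.Agent.Q102.Grid.R_refl _ _))
    omega
  -- one move
  have hmove : ∀ i r, r < N →
      LegalMove (grid (m + 1)) (Set.range (pos i r)) (Set.range (pos i (r + 1))) := by
    intro i r hr
    let a : Fin N := ⟨r, hr⟩
    have ha : pos i r a = s a + t i := by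
      simp [pos, a]
    have ha' : pos i (r + 1) a = s a + t (i + 1) := by
      simp [pos, a]
    have hother : ∀ b, b ≠ a → pos i (r + 1) b = pos i r b := by
      intro b hb
      have hbr : b.val ≠ r := fun h => hb (Fin.ext h)
      simp only [pos]
      have : b.val < r + 1 ↔ b.val < r := by omega
      simp only [this]
    refine ⟨pos i r a, ⟨a, rfl⟩, pos i (r + 1) a, ?_, ?_, ?_, hGP i (r + 1)⟩
    · rintro ⟨b, hb⟩
      by_cases hba : b = a
      · rw [hba, ha, ha'] at hb
        have := add_left_cancel hb
        exact (ht i).ne this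
      · rw [← hother b hba] at hb
        exact hba (hposinj i (r + 1) hb)
    · rw [ha, ha']
      obtain ⟨l, h1, h2⟩ := ht i
      refine ⟨l, ?_, ?_⟩
      · simpa using h1
      · intro j hj
        simp only [Pi.add_apply, h2 j hj]
    · ext x
      simp only [Set.mem_range, Set.mem_insert_iff, Set.mem_sdiff, Set.mem_singleton_iff]
      constructor
      · rintro ⟨b, rfl⟩
        by_cases hba : b = a
        · left
          rw [hba]
        · right
          rw [hother b hba]
          exact ⟨⟨b, rfl⟩, fun h => hba (hposinj i r h)⟩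
      · rintro (rfl | ⟨⟨b, rfl⟩, hb⟩)
        · exact ⟨a, rfl⟩
        · have hba : b ≠ a := fun h => hb (by rw [h])
          exact ⟨b, hother b hba⟩
  have hlast : ∀ i, pos i N = pos (i + 1) 0 := by
    intro i
    funext a
    simp [pos]
  let f : ℕ → Set (Fin (m + 1) → ℤ) := fun q => Set.range (pos (q / N) (q % N))
  have hf : ∀ q, f (q + 1) = Set.range (pos (q / N) (q % N + 1)) := by
    intro q
    have h1 := Nat.mod_lt q hN
    have h2 := Nat.div_add_mod q N
    by_cases h : q % N + 1 < N
    · obtain ⟨h3, h4⟩ := (Nat.div_mod_unique hN (a := q + 1) (d := q / N) (c := q % N + 1)).mpr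
        ⟨by omega, h⟩
      simp only [f, h3, h4]
    · have h5 : q % N + 1 = N := by omega
      obtain ⟨h3, h4⟩ := (Nat.div_mod_unique hN (a := q + 1) (d := q / N + 1) (c := 0)).mpr
        ⟨by rw [mul_add]; omega, hN⟩
      simp only [f, h3, h4, h5, hlast]
  have hmob : IsMobileGP (grid (m + 1)) (f 0) := by
    refine ⟨hGP _ _, f, rfl, fun q => ?_, fun v => ?_⟩
    · rw [hf]
      exact hmove _ _ (Nat.mod_lt q hN)
    · obtain ⟨i, hi⟩ := htv (v - s ⟨0, hN⟩)
      refine ⟨i * N, ⟨0, hN⟩, ?_⟩
      simp only [pos, Nat.mul_mod_left, Nat.mul_div_cancel _ hN, lt_irrefl, if_false, hi]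
      simp
  refine le_iSup₂_of_le (f 0) hmob ?_
  have h1 : (f 0).encard = N := by
    simp only [f]
    rw [← Set.image_univ, (hposinj _ _).encard_image, Set.encard_univ]
    simp
  rw [h1]
  simp only [N, hX]
  exact le_rfl

end Pool.Agent.Results.MP_903b9e_co.MobOfGrid
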